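import Pool.Agent.W115.Xor.Lower
import Pool.Agent.W115.Xor.Support

/-!
Random instances are far from satisfiable.
-/

set_option autoImplicit false

namespace Pool.Agent.W115.Xor

open Finset Filter Pool.Agent.W115.Mon Pool.Agent.W115.Mon2

variable {n k m : ℕ}

theorem one_sub_exp {s : ℝ} (hs : 0 ≤ s) : s - s ^ 2 / 2 ≤ 1 - Real.exp (-s) := by
  have h1 := Real.quadratic_le_exp_of_nonneg hs
  have h2 := Real.exp_pos s
  rw [Real.exp_neg]
  have h3 : (Real.exp s)⁻¹ ≤ (1 + s + s ^ 2 / 2)⁻¹ := by
    apply inv_anti₀ (by positivity) h1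
  have h4 : (1 + s + s ^ 2 / 2)⁻¹ ≤ 1 - s + s ^ 2 / 2 := by
    rw [inv_le_iff_one_le_mul₀ (by positivity)]
    nlinarith [sq_nonneg (s ^ 2)]
  linarith

/-- A lower tail estimate with a parameter. -/
theorem tail_param {C : Type} [Fintype C] (p : C → Prop) [DecidablePred p]
    (m : ℕ) (a s : ℝ) (hs : 0 ≤ s) (hC : 1 ≤ Fintype.card C) :
    ((univ.filter fun f : Fin m → C => ((univ.filter fun i => p (f i)).card : ℝ) < a).card : ℝ) ≤
      Real.exp (s * a - m * (((univ.filter p).card : ℝ) / Fintype.card C) * (s - s ^ 2 / 2)) *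
        Fintype.card (Fin m → C) := by
  classical
  set N : ℝ := (Fintype.card C : ℝ) with hN
  have hN0 : 0 < N := by rw [hN]; exact_mod_cast hC
  set g : ℝ := ((univ.filter p).card : ℝ) with hg
  have hg0 : 0 ≤ g := Nat.cast_nonneg _
  have h1 : ∑ f : Fin m → C, Real.exp (-s * ((univ.filter fun i => p (f i)).card : ℝ)) =
      (∑ c : C, if p c then Real.exp (-s) else 1) ^ m := by
    rw [Fintype.sum_pow]
    refine Finset.sum_congr rfl fun f _ => ?_
    rw [Finset.prod_ite, Finset.prod_const_one, mul_one, Finset.prod_const, ← Real.exp_nat_mul]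
    congr 1
    ring
  have h2 : (∑ c : C, if p c then Real.exp (-s) else (1 : ℝ)) ≤
      N * Real.exp (-(g / N * (s - s ^ 2 / 2))) := by
    have h3 : (∑ c : C, if p c then Real.exp (-s) else (1 : ℝ)) =
        N - (1 - Real.exp (-s)) * g := by
      have h4 : ∀ c : C, (if p c then Real.exp (-s) else (1 : ℝ)) =
          1 - (if p c then (1 - Real.exp (-s)) else 0) := by
        intro c; split_ifs <;> ring
      simp only [h4]
      rw [Finset.sum_sub_distrib, ← Finset.sum_filter, Finset.sum_const,
        Finset.sum_const, card_univ, nsmul_eq_mul, nsmul_eq_mul, mul_one]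
      ring
    rw [h3]
    have h5 := one_sub_exp hs
    have h6 := Real.add_one_le_exp (-(g / N * (s - s ^ 2 / 2)))
    calc N - (1 - Real.exp (-s)) * g ≤ N - (s - s ^ 2 / 2) * g := by nlinarith
      _ = N * (-(g / N * (s - s ^ 2 / 2)) + 1) := by field_simp; ring
      _ ≤ _ := mul_le_mul_of_nonneg_left h6 hN0.le
  have h3 : ((univ.filter fun f : Fin m → C =>
        ((univ.filter fun i => p (f i)).card : ℝ) < a).card : ℝ) * Real.exp (-s * a) ≤
      ∑ f : Fin m → C, Real.exp (-s * ((univ.filter fun i => p (f i)).card : ℝ)) := by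
    rw [← nsmul_eq_mul, ← Finset.sum_const]
    calc _ ≤ ∑ f ∈ univ.filter (fun f : Fin m → C =>
          ((univ.filter fun i => p (f i)).card : ℝ) < a),
          Real.exp (-s * ((univ.filter fun i => p (f i)).card : ℝ)) := by
          apply Finset.sum_le_sum
          intro f hf
          apply Real.exp_le_exp.mpr
          have := (mem_filter.mp hf).2
          nlinarith
      _ ≤ _ := Finset.sum_le_sum_of_subset_of_nonneg (filter_subset _ _)
          fun f _ _ => (Real.exp_pos _).le
  rw [h1] at h3
  have h4 : (∑ c : C, if p c then Real.exp (-s) else (1 : ℝ)) ^ m ≤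
      N ^ m * Real.exp (-(m * (g / N) * (s - s ^ 2 / 2))) := by
    calc _ ≤ (N * Real.exp (-(g / N * (s - s ^ 2 / 2)))) ^ m := by
          apply pow_le_pow_left₀ _ h2
          exact Finset.sum_nonneg fun c _ => by split_ifs <;> positivity
      _ = _ := by
          rw [mul_pow, ← Real.exp_nat_mul]
          congr 2
          ring
  have h5 := h3.trans h4
  have h6 : Real.exp (-s * a) = (Real.exp (s * a))⁻¹ := by
    rw [← Real.exp_neg]; congr 1; ring
  rw [h6, ← div_eq_mul_inv, div_le_iff₀ (Real.exp_pos _)] at h5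
  rw [Fintype.card_fun, Fintype.card_fin, Nat.cast_pow, ← hN]
  refine h5.trans (le_of_eq ?_)
  have h7 : s * a - m * (g / N) * (s - s ^ 2 / 2) =
      s * a + -(m * (g / N) * (s - s ^ 2 / 2)) := by ring
  rw [h7, Real.exp_add]
  ring

open Classical in
/-- The fraction of the vectors that `P` rejects. -/
noncomputable def rejects (P : (Fin k → Bool) → Prop) : ℝ :=
  ((univ.filter fun z : Fin k → Bool => ¬ P z).card : ℝ) / 2 ^ k

open Classical in
theorem violated_card (P : (Fin k → Bool) → Prop) (α : Fin n → Bool) :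
    (univ.filter fun c : Con n k => ¬ c.Holds P α).card =
      n.descFactorial k * (univ.filter fun z : Fin k → Bool => ¬ P z).card := by
  have h1 : (univ.filter fun c : Con n k => ¬ c.Holds P α).card =
      ((univ : Finset (Fin k ↪ Fin n)) ×ˢ
        (univ.filter fun z : Fin k → Bool => ¬ P z)).card := by
    apply Finset.card_bij (fun c _ => (c.1, fun i => xor (α (c.1 i)) (c.2 i)))
    · intro c hc
      simp only [mem_filter, mem_univ, true_and, mem_product] at hc ⊢
      exact hc
    · rintro ⟨e, b⟩ _ ⟨e', b'⟩ _ h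
      simp only [Prod.mk.injEq] at h
      obtain ⟨rfl, h⟩ := h
      congr 1
      funext i
      have := congrFun h i
      revert this
      cases α (e i) <;> cases b i <;> cases b' i <;> simp
    · rintro ⟨e, z⟩ hz
      simp only [mem_filter, mem_univ, true_and, mem_product] at hz
      refine ⟨(e, fun i => xor (α (e i)) (z i)), ?_, ?_⟩
      · rw [mem_filter]
        refine ⟨mem_univ _, ?_⟩
        have : (fun i => xor (α (e i)) (xor (α (e i)) (z i))) = z := by
          funext i
          cases α (e i) <;> cases z i <;> simp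
        show ¬ P (fun i => xor (α (e i)) (xor (α (e i)) (z i)))
        rw [this]
        exact hz
      · simp only [Prod.mk.injEq, true_and]
        funext i
        cases α (e i) <;> cases z i <;> simp
  rw [h1, card_product, card_univ, Fintype.card_embedding_eq, Fintype.card_fin, Fintype.card_fin]

/-- Every assignment violates at least the fraction `ρ` of the constraints in `x`. -/
def Far (P : (Fin k → Bool) → Prop) (ρ : ℝ) (x : Finset (Con n k)) : Prop :=
  ∀ α : Fin n → Bool, ρ * x.card ≤ Nat.card {c : Con n k // c ∈ x ∧ ¬ c.Holds P α}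

open Classical in
theorem not_far_count (P : (Fin k → Bool) → Prop) {δ : ℝ} (hδ : 0 ≤ δ) (hkn : k ≤ n) :
    ((univ.filter fun f : Fin m → Con n k =>
      ¬ (Function.Injective f → Far P (rejects P - δ) (univ.image f))).card : ℝ) ≤
      2 ^ n * (Real.exp (-(m * δ ^ 2 / 2)) * Fintype.card (Fin m → Con n k)) := by
  have hC1 : 1 ≤ Fintype.card (Con n k) := by
    rw [con_card]
    exact Nat.mul_pos (Nat.descFactorial_pos.mpr hkn) (by positivity)
  have hρ : ∀ α : Fin n → Bool, ((univ.filter fun c : Con n k => ¬ c.Holds P α).card : ℝ) /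
      Fintype.card (Con n k) = rejects P := by
    intro α
    rw [violated_card, con_card, rejects]
    push_cast
    have : (0 : ℝ) < (n.descFactorial k : ℕ) := by
      exact_mod_cast Nat.descFactorial_pos.mpr hkn
    field_simp
  have hρ1 : rejects P ≤ 1 := by
    rw [rejects, div_le_one (by positivity)]
    have : (univ.filter fun z : Fin k → Bool => ¬ P z).card ≤ 2 ^ k := by
      calc _ ≤ Fintype.card (Fin k → Bool) := Finset.card_le_univ _
        _ = 2 ^ k := by simp
    exact_mod_cast this
  have h1 : (univ.filter fun f : Fin m → Con n k =>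
      ¬ (Function.Injective f → Far P (rejects P - δ) (univ.image f))) ⊆
      (univ : Finset (Fin n → Bool)).biUnion fun α => univ.filter fun f : Fin m → Con n k =>
        ((univ.filter fun i => ¬ (f i).Holds P α).card : ℝ) < (rejects P - δ) * m := by
    intro f hf
    simp only [mem_filter, mem_univ, true_and, mem_biUnion] at hf ⊢
    rw [Classical.not_imp] at hf
    obtain ⟨hinj, hf⟩ := hf
    rw [Far] at hf
    push Not at hf
    obtain ⟨α, hα⟩ := hf
    refine ⟨α, ?_⟩
    rw [Finset.card_image_of_injective _ hinj, card_univ, Fintype.card_fin] at hα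
    refine lt_of_le_of_lt ?_ hα
    rw [Nat.card_eq_fintype_card, Fintype.card_subtype]
    have h2 : (univ.filter fun i => ¬ (f i).Holds P α).card ≤
        (univ.filter fun c : Con n k => c ∈ univ.image f ∧ ¬ c.Holds P α).card := by
      apply Finset.card_le_card_of_injOn f
      · intro i hi
        simp only [coe_filter, mem_univ, true_and, Set.mem_ofPred_eq, mem_image,
          exists_apply_eq_apply] at hi ⊢
        exact hi
      · exact hinj.injOn
    exact_mod_cast h2
  have h2 : ∀ α : Fin n → Bool, ((univ.filter fun f : Fin m → Con n k =>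
        ((univ.filter fun i => ¬ (f i).Holds P α).card : ℝ) < (rejects P - δ) * m).card : ℝ) ≤
      Real.exp (-(m * δ ^ 2 / 2)) * Fintype.card (Fin m → Con n k) := by
    intro α
    refine (tail_param (fun c : Con n k => ¬ c.Holds P α) m ((rejects P - δ) * m) δ hδ hC1).trans ?_
    apply mul_le_mul_of_nonneg_right _ (Nat.cast_nonneg _)
    apply Real.exp_le_exp.mpr
    rw [hρ α]
    have hm : (0 : ℝ) ≤ m := Nat.cast_nonneg _
    have h3 : rejects P * δ ^ 2 ≤ 1 * δ ^ 2 := mul_le_mul_of_nonneg_right hρ1 (sq_nonneg _)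
    nlinarith
  calc _ ≤ (∑ α : Fin n → Bool, ((univ.filter fun f : Fin m → Con n k =>
        ((univ.filter fun i => ¬ (f i).Holds P α).card : ℝ) < (rejects P - δ) * m).card : ℝ)) := by
        exact_mod_cast (Finset.card_le_card h1).trans card_biUnion_le
    _ ≤ ∑ _α : Fin n → Bool, Real.exp (-(m * δ ^ 2 / 2)) * Fintype.card (Fin m → Con n k) :=
        Finset.sum_le_sum fun α _ => h2 α
    _ = _ := by
        rw [Finset.sum_const, card_univ, nsmul_eq_mul, Fintype.card_fun]
        simp

/-- The sequence has a repetition. -/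
def NotInj {C : Type} (f : Fin m → C) : Prop := ¬ Function.Injective f

open Classical in
theorem not_injective_count {C : Type} [Fintype C] (hC : 1 ≤ Fintype.card C) :
    ((univ.filter fun f : Fin m → C => NotInj f).card : ℝ) ≤
      (m : ℝ) ^ 2 / Fintype.card C * Fintype.card (Fin m → C) := by
  have hC0 : (0 : ℝ) < Fintype.card C := by exact_mod_cast hC
  have h1 : (univ.filter fun f : Fin m → C => NotInj f) ⊆
      (univ : Finset (Fin m × Fin m)).biUnion fun p => univ.filter fun f : Fin m → C =>
        p.1 ≠ p.2 ∧ f p.1 = f p.2 := by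
    intro f hf
    simp only [mem_filter, mem_univ, true_and, mem_biUnion, Prod.exists] at hf ⊢
    rw [NotInj, Function.Injective] at hf
    push Not at hf
    obtain ⟨i, j, h1, h2⟩ := hf
    exact ⟨i, j, h2, h1⟩
  have h2 : ∀ p : Fin m × Fin m, (univ.filter fun f : Fin m → C =>
      p.1 ≠ p.2 ∧ f p.1 = f p.2).card * Fintype.card C ≤ Fintype.card (Fin m → C) := by
    rintro ⟨i, j⟩
    by_cases hij : i = j
    · subst hij; simp
    have h3 : ((univ.filter fun f : Fin m → C => i ≠ j ∧ f i = f j) ×ˢ
        (univ : Finset C)).card ≤ (univ : Finset (Fin m → C)).card := by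
      apply Finset.card_le_card_of_injOn (fun q => Function.update q.1 i q.2)
      · intro _ _; simp
      · rintro ⟨f, c⟩ hf ⟨f', c'⟩ hf' heq
        simp only [coe_product, coe_filter, mem_univ, true_and, coe_univ, Set.mem_prod,
          Set.mem_ofPred_eq, Set.mem_univ, and_true] at hf hf'
        have h4 : c = c' := by
          have := congrFun heq i
          simpa using this
        subst h4
        have h5 : f = f' := by
          funext l
          by_cases hl : l = i
          · subst hl
            rw [hf.2, hf'.2]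
            have := congrFun heq j
            simpa [Function.update_of_ne (Ne.symm hij)] using this
          · have := congrFun heq l
            simpa [Function.update_of_ne hl] using this
        rw [h5]
    rw [card_product, card_univ, card_univ] at h3
    exact h3
  have h3 : (univ.filter fun f : Fin m → C => NotInj f).card * Fintype.card C ≤
      m ^ 2 * Fintype.card (Fin m → C) := by
    calc _ ≤ (∑ p : Fin m × Fin m, (univ.filter fun f : Fin m → C =>
          p.1 ≠ p.2 ∧ f p.1 = f p.2).card) * Fintype.card C :=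
          Nat.mul_le_mul_right _ ((Finset.card_le_card h1).trans card_biUnion_le)
      _ = ∑ p : Fin m × Fin m, (univ.filter fun f : Fin m → C =>
          p.1 ≠ p.2 ∧ f p.1 = f p.2).card * Fintype.card C := by rw [Finset.sum_mul]
      _ ≤ ∑ _p : Fin m × Fin m, Fintype.card (Fin m → C) := Finset.sum_le_sum fun p _ => h2 p
      _ = _ := by
          rw [Finset.sum_const, card_univ, Fintype.card_prod, Fintype.card_fin, smul_eq_mul]
          ring
  rw [div_mul_eq_mul_div, le_div_iff₀ hC0]
  exact_mod_cast h3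

theorem final_sum {G a b c y z T : ℝ} (h : T ≤ G + (a + (b + c))) (ha : a ≤ y * T)
    (hb : b ≤ y * T) (hc : c ≤ y * T) (h3 : y * 3 * T ≤ z * T) : (1 - z) * T ≤ G := by
  linarith

open Classical in
theorem gap_bound {t : ℕ} {P : (Fin k → Bool) → Prop} (hP : Supports P t) (ht : t < k)
    (hk : 3 ≤ k) {δ c : ℝ} (hδ : 0 < δ) (hc : 0 < c) (h1 : ((t : ℝ) + 2) * c < t)
    (h2 : max 1 (((t : ℝ) - 1) / 2) * c < ((t : ℝ) - 1) / 2) :
    ∃ A : ℕ, ∃ ε : ℝ, 0 < ε ∧ ∀ᶠ n : ℕ in atTop, ∀ K : MonotoneCircuit (Con n k),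
      (K.size : ℝ) ≤ Real.exp ((n : ℝ) ^ c) →
      Real.exp (-(n : ℝ) ^ c) * Fintype.card (Fin n → Bool) <
        ((univ.filter fun α : Fin n → Bool => ¬ K.Accepts (planted P α)).card : ℝ) →
      (1 - (n : ℝ) ^ (-ε)) * Fintype.card (Fin (A * n) → Con n k) ≤
        ((univ.filter fun f : Fin (A * n) → Con n k => Function.Injective f ∧
          Far P (rejects P - δ) (univ.image f) ∧ ¬ K.Accepts (univ.image f)).card : ℝ) := by
  set g1 : ℝ := t - ((t : ℝ) + 2) * c with hg1
  set g2 : ℝ := ((t : ℝ) - 1) / 2 - max 1 (((t : ℝ) - 1) / 2) * c with hg2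
  have hg1p : 0 < g1 := by rw [hg1]; linarith
  have hg2p : 0 < g2 := by rw [hg2]; linarith
  set ε : ℝ := min (min (g1 / 4) (g2 / 4)) (1 / 4) with hε
  have hε0 : 0 < ε := lt_min (lt_min (by positivity) (by positivity)) (by norm_num)
  have hε1 : ε ≤ g1 / 4 := (min_le_left _ _).trans (min_le_left _ _)
  have hε2 : ε ≤ g2 / 4 := (min_le_left _ _).trans (min_le_right _ _)
  have hε3 : ε ≤ 1 / 4 := min_le_right _ _
  obtain ⟨A, hA⟩ := exists_nat_gt (4 / δ ^ 2)
  have hA1 : 4 < δ ^ 2 * A := by
    rw [div_lt_iff₀ (by positivity)] at hA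
    linarith
  refine ⟨A, ε, hε0, ?_⟩
  have hcast : Tendsto (fun n : ℕ => (n : ℝ)) atTop atTop := tendsto_natCast_atTop_atTop
  have ev : ∀ a C : ℝ, 0 < a → ∀ᶠ n : ℕ in atTop, C ≤ (n : ℝ) ^ a := fun a C ha =>
    ((tendsto_rpow_atTop ha).comp hcast).eventually_ge_atTop _
  have hlow := lower_bound hP ht (μ := 1 + ε) (c := c) (ε := 2 * ε) (by linarith) hc
    (by linarith) (by linarith) (by linarith)
  filter_upwards [hlow, ev ε A hε0, ev ε 3 hε0, ev (1 / 4) ((A : ℝ) ^ 2) (by norm_num),
    eventually_ge_atTop (2 * k + 1), ev 1 3 one_pos] with n hn hA2 h3 h4 h5 h6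
  intro K hK hrej
  set x : ℝ := (n : ℝ) with hx
  have hx1 : 1 ≤ x := by
    have : 1 ≤ n := by omega
    rw [hx]; exact_mod_cast this
  have hx0 : 0 < x := lt_of_lt_of_le one_pos hx1
  rw [Real.rpow_one] at h6
  set T : ℝ := (Fintype.card (Fin (A * n) → Con n k) : ℝ) with hT
  have hT0 : 0 ≤ T := Nat.cast_nonneg _
  have hC1 : 1 ≤ Fintype.card (Con n k) :=
    le_trans (Nat.one_le_pow _ _ (by omega)) (con_card_ge (by omega))
  -- the accepted ones
  have ha : ((univ.filter fun f : Fin (A * n) → Con n k => K.Accepts (univ.image f)).card : ℝ) ≤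
      x ^ (-(2 * ε)) * T := by
    have h7 : ((A * n : ℕ) : ℝ) ≤ (n : ℝ) ^ (1 + ε) := by
      push_cast
      rw [← hx, Real.rpow_add hx0, Real.rpow_one, mul_comm]
      exact mul_le_mul_of_nonneg_left hA2 hx0.le
    rcases hn (A * n) h7 K hK with h | h
    · exact absurd hrej (not_lt.mpr h)
    · exact h
  have hb := not_injective_count (m := A * n) (C := Con n k) hC1
  have hb' : ((A * n : ℕ) : ℝ) ^ 2 / Fintype.card (Con n k) ≤ x ^ (-(2 * ε)) := by
    have h7 : x ^ 3 ≤ (Fintype.card (Con n k) : ℝ) := by
      calc x ^ 3 ≤ x ^ k := pow_le_pow_right₀ hx1 hk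
        _ ≤ _ := by rw [hx]; exact_mod_cast con_card_ge (by omega)
    have h8 : (0 : ℝ) < x ^ 3 := by positivity
    calc ((A * n : ℕ) : ℝ) ^ 2 / Fintype.card (Con n k) ≤ ((A : ℝ) * x) ^ 2 / x ^ 3 := by
          push_cast
          rw [← hx]
          apply div_le_div_of_nonneg_left (by positivity) h8 h7
      _ = (A : ℝ) ^ 2 * x⁻¹ := by
          rw [mul_pow, div_eq_iff h8.ne']
          have : x⁻¹ * x ^ 3 = x ^ 2 := by
            rw [pow_succ' x 2, ← mul_assoc, inv_mul_cancel₀ hx0.ne', one_mul]
          rw [mul_assoc, this]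
      _ ≤ x ^ (1 / 4 : ℝ) * x⁻¹ := mul_le_mul_of_nonneg_right h4 (by positivity)
      _ = x ^ ((1 / 4 : ℝ) - 1) := by
          rw [Real.rpow_sub hx0, Real.rpow_one]
          rfl
      _ ≤ _ := Real.rpow_le_rpow_of_exponent_le hx1 (by linarith)
  have hf := not_far_count (m := A * n) (n := n) P hδ.le (by omega : k ≤ n)
  have hf' : 2 ^ n * (Real.exp (-(((A * n : ℕ) : ℝ) * δ ^ 2 / 2)) * T) ≤ x ^ (-(2 * ε)) * T := by
    rw [← mul_assoc]
    apply mul_le_mul_of_nonneg_right _ hT0
    have h7 : (2 : ℝ) ^ n ≤ Real.exp x := by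
      calc (2 : ℝ) ^ n ≤ Real.exp 1 ^ n := by
            apply pow_le_pow_left₀ (by norm_num)
            have := Real.add_one_le_exp (1 : ℝ)
            linarith
        _ = Real.exp x := by rw [← Real.exp_nat_mul, mul_one]
    calc (2 : ℝ) ^ n * Real.exp (-(((A * n : ℕ) : ℝ) * δ ^ 2 / 2))
        ≤ Real.exp x * Real.exp (-(2 * x)) := by
          apply mul_le_mul h7 _ (Real.exp_pos _).le (Real.exp_pos _).le
          apply Real.exp_le_exp.mpr
          push_cast
          rw [← hx]
          nlinarith
      _ = Real.exp (-x) := by rw [← Real.exp_add]; congr 1; ring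
      _ ≤ x⁻¹ := by
          rw [Real.exp_neg]
          apply inv_anti₀ hx0
          have := Real.add_one_le_exp x
          linarith
      _ = x ^ (-1 : ℝ) := by rw [Real.rpow_neg_one]
      _ ≤ _ := Real.rpow_le_rpow_of_exponent_le hx1 (by linarith)
  -- together
  have hcov : (univ : Finset (Fin (A * n) → Con n k)) ⊆
      (univ.filter fun f : Fin (A * n) → Con n k => Function.Injective f ∧
          Far P (rejects P - δ) (univ.image f) ∧ ¬ K.Accepts (univ.image f)) ∪
      ((univ.filter fun f : Fin (A * n) → Con n k => K.Accepts (univ.image f)) ∪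
      ((univ.filter fun f : Fin (A * n) → Con n k => NotInj f) ∪
      (univ.filter fun f : Fin (A * n) → Con n k =>
        ¬ (Function.Injective f → Far P (rejects P - δ) (univ.image f))))) := by
    intro f _
    simp only [mem_union, mem_filter, mem_univ, true_and]
    have hNI : NotInj f ↔ ¬ Function.Injective f := Iff.rfl
    tauto
  have hsum : T ≤ ((univ.filter fun f : Fin (A * n) → Con n k => Function.Injective f ∧
          Far P (rejects P - δ) (univ.image f) ∧ ¬ K.Accepts (univ.image f)).card : ℝ) +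
      (((univ.filter fun f : Fin (A * n) → Con n k => K.Accepts (univ.image f)).card : ℝ) +
      (((univ.filter fun f : Fin (A * n) → Con n k => NotInj f).card : ℝ) +
      ((univ.filter fun f : Fin (A * n) → Con n k =>
        ¬ (Function.Injective f → Far P (rejects P - δ) (univ.image f))).card : ℝ))) := by
    have h7 := Finset.card_le_card hcov
    rw [card_univ] at h7
    have h8 := h7.trans ((Finset.card_union_le _ _).trans (Nat.add_le_add_left
      ((Finset.card_union_le _ _).trans (Nat.add_le_add_left (Finset.card_union_le _ _) _)) _))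
    rw [hT]
    exact_mod_cast h8
  have h7 : x ^ (-(2 * ε)) * 3 ≤ x ^ (-ε) := by
    have h8 : x ^ (-(2 * ε)) * x ^ ε = x ^ (-ε) := by
      rw [← Real.rpow_add hx0]; congr 1; ring
    rw [← h8]
    exact mul_le_mul_of_nonneg_left h3 (by positivity)
  have hb2 := hb.trans (mul_le_mul_of_nonneg_right hb' hT0)
  have hf2 := hf.trans hf'
  have h8 : x ^ (-(2 * ε)) * 3 * T ≤ x ^ (-ε) * T := mul_le_mul_of_nonneg_right h7 hT0
  exact final_sum hsum ha hb2 hf2 h8

end Pool.Agent.W115.Xor
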