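import Pool.Agent.W115.Xor.Gap

/-!
The fraction of rejected vectors of `k`-SAT and `k`-XOR.
-/

set_option autoImplicit false

namespace Pool.Agent.W115.Xor

open Finset

variable {k : ℕ}

theorem rejects_sat : rejects (sat k) = 1 / 2 ^ k := by
  classical
  have h1 : (univ.filter fun z : Fin k → Bool => ¬ sat k z) = {fun _ => false} := by
    ext z
    simp only [mem_filter, mem_univ, true_and, mem_singleton, sat, not_exists,
      Bool.not_eq_true]
    constructor
    · intro h; funext i; exact h i
    · rintro rfl i; rfl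
  have h2 : rejects (sat k) =
      ((univ.filter fun z : Fin k → Bool => ¬ sat k z).card : ℝ) / 2 ^ k := by
    rw [rejects]
  rw [h2, h1, card_singleton, Nat.cast_one]

theorem rejects_odd (hk : 1 ≤ k) : rejects (odd k) = 1 / 2 := by
  classical
  have h2 : rejects (odd k) =
      ((univ.filter fun z : Fin k → Bool => ¬ odd k z).card : ℝ) / 2 ^ k := by
    rw [rejects]
  have h3 : ((univ.filter fun z : Fin k → Bool => ¬ odd k z).card : ℝ) =
      ∑ z : Fin k → Bool, (1 / 2) * (∏ _i : Fin k, (1 : ℝ) + ∏ i, sg (z i)) := by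
    rw [Finset.card_filter]
    push_cast
    refine Finset.sum_congr rfl fun z _ => ?_
    rw [prod_sg, Finset.prod_const_one]
    by_cases h : odd k z
    · rw [if_neg (not_not.mpr h)]
      rw [odd] at h
      rw [h.neg_one_pow]
      norm_num
    · rw [if_pos h]
      rw [odd, Nat.not_odd_iff_even] at h
      rw [h.neg_one_pow]
      norm_num
  have h4 := sum_agree (∅ : Finset (Fin k)) (fun _ => false) (fun _ => (1 : ℝ))
  have h5 := sum_agree (∅ : Finset (Fin k)) (fun _ => false) sg
  have h6 : sg true + sg false = 0 := by simp [sg]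
  have h7 : (univ.filter fun x : Fin k → Bool => ∀ i ∈ (∅ : Finset (Fin k)), x i = false) =
      univ := by
    ext x; simp
  rw [h7] at h4 h5
  rw [h6, card_empty, Nat.sub_zero, zero_pow (by omega), mul_zero] at h5
  rw [card_empty, Nat.sub_zero, Finset.prod_empty, one_mul] at h4
  rw [h2, h3, ← Finset.mul_sum, Finset.sum_add_distrib, h4, h5]
  have h8 : (1 : ℝ) + 1 = 2 := by norm_num
  rw [h8, add_zero]
  field_simp

end Pool.Agent.W115.Xor
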